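import Mathlib
import Pool.Agent.H364R2.EEb

set_option autoImplicit false

namespace Pool.Agent.W99.ExpE

open Real Pool.Agent.H43R2.Cplx.EMeas Pool.Agent.H364R2.EE

/-- first order expansion of `1 / (x - 4 + 1 / (x - 8 + a2))` -/
theorem a_est (x a0 a1 a2 : ℝ) (hx : 100 ≤ x) (h20 : 0 ≤ a2) (h21 : a2 ≤ 1)
    (h1 : a1 * (x - 8 + a2) = 1) (h0 : a0 * (x - 4 + a1) = 1) :
    |x ^ 3 * a0 - x ^ 2 - 4 * x - 15| ≤ 100 / x := by
  have hx0 : 0 < x := by linarith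
  have hp1 : 0 < x - 8 + a2 := by linarith
  have ha1 : a1 = 1 / (x - 8 + a2) := by field_simp; linarith
  have ha10 : 0 < a1 := by rw [ha1]; positivity
  have ha11 : a1 ≤ 1 / 80 := by
    rw [ha1]
    apply one_div_le_one_div_of_le (by norm_num)
    linarith
  have hp0 : 0 < x - 4 + a1 := by linarith
  set e := x ^ 3 * a0 - x ^ 2 - 4 * x - 15 with he
  have hax : a1 * x = 1 + (8 - a2) * a1 := by linarith
  have key : e * (x - 4 + a1) = x + 60 - a1 * (x ^ 2 + 4 * x + 15) := by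
    have : e * (x - 4 + a1) = x ^ 3 * (a0 * (x - 4 + a1)) -
        (x ^ 2 + 4 * x + 15) * (x - 4 + a1) := by rw [he]; ring
    rw [this, h0]; ring
  have key2 : a1 * (x ^ 2 + 4 * x + 15) = x + (8 - a2) * (1 + (8 - a2) * a1) +
      4 * (1 + (8 - a2) * a1) + 15 * a1 := by
    have : a1 * (x ^ 2 + 4 * x + 15) = (a1 * x) * x + 4 * (a1 * x) + 15 * a1 := by ring
    rw [this, hax]
    have : (8 - a2) * a1 * x = (8 - a2) * (a1 * x) := by ring
    have h3 : (1 + (8 - a2) * a1) * x = x + (8 - a2) * (a1 * x) := by ring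
    rw [h3, hax]
  have hb : 0 ≤ (8 - a2) * a1 := mul_nonneg (by linarith) ha10.le
  have hb' : (8 - a2) * a1 ≤ 8 * (1 / 80) := mul_le_mul (by linarith) ha11 ha10.le (by norm_num)
  have hc : (8 - a2) * (1 + (8 - a2) * a1) ≤ 8 * (1 + 8 * (1 / 80)) :=
    mul_le_mul (by linarith) (by linarith) (by linarith) (by norm_num)
  have hc0 : 0 ≤ (8 - a2) * (1 + (8 - a2) * a1) := mul_nonneg (by linarith) (by linarith)
  have hlo : 0 ≤ e * (x - 4 + a1) := by rw [key, key2]; linarith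
  have hup : e * (x - 4 + a1) ≤ 60 := by rw [key, key2]; linarith
  have he0 : 0 ≤ e := by
    by_contra hcon
    push Not at hcon
    have := mul_neg_of_neg_of_pos hcon hp0
    linarith
  rw [abs_of_nonneg he0, le_div_iff₀ hx0]
  have : e * (x * (3 / 5)) ≤ e * (x - 4 + a1) := by
    apply mul_le_mul_of_nonneg_left _ he0
    linarith
  linarith

/-- first order expansion of `1 / (x + 4 + 1 / (x + 8 + b2))` -/
theorem b_est (x b0 b1 b2 : ℝ) (hx : 100 ≤ x) (h20 : 0 ≤ b2) (h21 : b2 ≤ 1)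
    (h1 : b1 * (x + 8 + b2) = 1) (h0 : b0 * (x + 4 + b1) = 1) :
    |x ^ 3 * b0 - x ^ 2 + 4 * x - 15| ≤ 100 / x := by
  have hx0 : 0 < x := by linarith
  have hp1 : 0 < x + 8 + b2 := by linarith
  have hb1 : b1 = 1 / (x + 8 + b2) := by field_simp; linarith
  have hb10 : 0 < b1 := by rw [hb1]; positivity
  have hb11 : b1 ≤ 1 / 100 := by
    rw [hb1]
    apply one_div_le_one_div_of_le (by norm_num)
    linarith
  have hp0 : 0 < x + 4 + b1 := by linarith
  set e := x ^ 3 * b0 - x ^ 2 + 4 * x - 15 with he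
  have hbx : b1 * x = 1 - (8 + b2) * b1 := by linarith
  have key : e * (x + 4 + b1) = x - 60 - b1 * (x ^ 2 - 4 * x + 15) := by
    have : e * (x + 4 + b1) = x ^ 3 * (b0 * (x + 4 + b1)) -
        (x ^ 2 - 4 * x + 15) * (x + 4 + b1) := by rw [he]; ring
    rw [this, h0]; ring
  have key2 : b1 * (x ^ 2 - 4 * x + 15) = x - (8 + b2) * (1 - (8 + b2) * b1) -
      4 * (1 - (8 + b2) * b1) + 15 * b1 := by
    have : b1 * (x ^ 2 - 4 * x + 15) = (b1 * x) * x - 4 * (b1 * x) + 15 * b1 := by ring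
    rw [this, hbx]
    have h3 : (1 - (8 + b2) * b1) * x = x - (8 + b2) * (b1 * x) := by ring
    rw [h3, hbx]
  have hb : 0 ≤ (8 + b2) * b1 := mul_nonneg (by linarith) hb10.le
  have hb' : (8 + b2) * b1 ≤ 9 * (1 / 100) := mul_le_mul (by linarith) hb11 hb10.le (by norm_num)
  have hc : (8 + b2) * (1 - (8 + b2) * b1) ≤ 9 * 1 :=
    mul_le_mul (by linarith) (by linarith) (by linarith) (by norm_num)
  have hc0 : 0 ≤ (8 + b2) * (1 - (8 + b2) * b1) := mul_nonneg (by linarith) (by linarith)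
  have hlo : -60 ≤ e * (x + 4 + b1) := by rw [key, key2]; linarith
  have hup : e * (x + 4 + b1) ≤ 0 := by rw [key, key2]; linarith
  have he0 : e ≤ 0 := by
    by_contra hcon
    push Not at hcon
    have := mul_pos hcon hp0
    linarith
  rw [abs_of_nonpos he0, le_div_iff₀ hx0]
  have : (-e) * x ≤ (-e) * (x + 4 + b1) := by
    apply mul_le_mul_of_nonneg_left _ (by linarith)
    linarith
  linarith

/-- the estimate for `F = x + a0 + b0` -/
theorem F_est (x a0 b0 : ℝ) (hx : 100 ≤ x) (ha : |x ^ 3 * a0 - x ^ 2 - 4 * x - 15| ≤ 100 / x)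
    (hb : |x ^ 3 * b0 - x ^ 2 + 4 * x - 15| ≤ 100 / x) :
    |(x ^ 2 + 2) * (x ^ 2 + 2 - x * (x + a0 + b0)) + 30| ≤ 300 / x := by
  have hx0 : 0 < x := by linarith
  set e := x ^ 3 * a0 - x ^ 2 - 4 * x - 15 with he
  set f := x ^ 3 * b0 - x ^ 2 + 4 * x - 15 with hf
  have h1 : x ^ 2 * (x * (x + a0 + b0)) = x ^ 4 + 2 * x ^ 2 + 30 + (e + f) := by
    rw [he, hf]; ring
  have h2 : x ^ 2 * ((x ^ 2 + 2) * (x ^ 2 + 2 - x * (x + a0 + b0)) + 30) =
      - (x ^ 2 + 2) * (e + f) - 60 := by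
    have : x ^ 2 * ((x ^ 2 + 2) * (x ^ 2 + 2 - x * (x + a0 + b0)) + 30) =
      (x ^ 2 + 2) * (x ^ 2 * (x ^ 2 + 2) - x ^ 2 * (x * (x + a0 + b0))) + 30 * x ^ 2 := by ring
    rw [this, h1]; ring
  have hef : |e + f| ≤ 200 / x := by
    refine (abs_add_le _ _).trans ?_
    have : (200 : ℝ) / x = 100 / x + 100 / x := by ring
    rw [this]
    exact add_le_add ha hb
  have h3 : x ^ 2 * |(x ^ 2 + 2) * (x ^ 2 + 2 - x * (x + a0 + b0)) + 30| ≤
      (x ^ 2 + 2) * (200 / x) + 60 := by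
    have h4 : x ^ 2 * |(x ^ 2 + 2) * (x ^ 2 + 2 - x * (x + a0 + b0)) + 30| =
        |- (x ^ 2 + 2) * (e + f) - 60| := by
      rw [← h2, abs_mul, abs_of_pos (by positivity : 0 < x ^ 2)]
    rw [h4]
    refine (abs_sub _ _).trans ?_
    rw [abs_mul, abs_neg, abs_of_pos (by positivity : 0 < x ^ 2 + 2),
      abs_of_pos (by norm_num : (0 : ℝ) < 60)]
    linarith [mul_le_mul_of_nonneg_left hef (by positivity : 0 ≤ x ^ 2 + 2)]
  have h5 : (x ^ 2 + 2) * (200 / x) + 60 ≤ x ^ 2 * (300 / x) := by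
    have e1 : (x ^ 2 + 2) * (200 / x) = 200 * x + 400 / x := by field_simp; ring
    have e2 : x ^ 2 * (300 / x) = 300 * x := by field_simp
    have e3 : 400 / x ≤ 4 := by rw [div_le_iff₀ hx0]; linarith
    rw [e1, e2]; linarith
  exact le_of_mul_le_mul_left (h3.trans h5) (by positivity)

/-- `F = 2 / (q n * I n)` -/
theorem F_bound (n : ℕ) (hn : 25 ≤ n) (x : ℝ) (hx : x = 4 * (n : ℝ) + 2) :
    ∃ F : ℝ, F * (q n * I n) = 2 ∧ 0 < F ∧ F ≤ x + 1 ∧
    |(x ^ 2 + 2) * (x ^ 2 + 2 - x * F) + 30| ≤ 300 / x := by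
  obtain ⟨m, rfl⟩ : ∃ m, n = m + 3 := ⟨n - 3, by omega⟩
  have p0 : 0 < (q (m + 3) : ℝ) := by exact_mod_cast (q_pos _).1
  have p1 : 0 < (q (m + 2) : ℝ) := by exact_mod_cast (q_pos _).1
  have p2 : 0 < (q (m + 1) : ℝ) := by exact_mod_cast (q_pos _).1
  have p3 : 0 < (q m : ℝ) := by exact_mod_cast (q_pos _).1
  have i0 := I_pos (m + 3)
  have i1 := I_pos (m + 4)
  have i2 := I_pos (m + 5)
  have i3 := I_pos (m + 6)
  have hm : (22 : ℝ) ≤ m := by
    have : 22 ≤ m := by omega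
    exact_mod_cast this
  have r0 : (q (m + 4) : ℝ) = (4 * ((m + 2 : ℕ) : ℝ) + 6) * q (m + 3) + q (m + 2) := by
    have : q (m + 4) = (4 * (m + 2) + 6) * q (m + 3) + q (m + 2) := rfl
    rw [this]; push_cast; ring
  have r1 : (q (m + 3) : ℝ) = (4 * ((m + 1 : ℕ) : ℝ) + 6) * q (m + 2) + q (m + 1) := by
    have : q (m + 3) = (4 * (m + 1) + 6) * q (m + 2) + q (m + 1) := rfl
    rw [this]; push_cast; ring
  have r2 : (q (m + 2) : ℝ) = (4 * (m : ℝ) + 6) * q (m + 1) + q m := by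
    have : q (m + 2) = (4 * m + 6) * q (m + 1) + q m := rfl
    rw [this]; push_cast; ring
  have s0 : I (m + 5) = I (m + 3) - (4 * ((m + 3 : ℕ) : ℝ) + 6) * I (m + 4) := I_rec (m + 3)
  have s1 : I (m + 6) = I (m + 4) - (4 * ((m + 4 : ℕ) : ℝ) + 6) * I (m + 5) := I_rec (m + 4)
  have hqmono : (q m : ℝ) ≤ q (m + 1) := by exact_mod_cast q_mono (by omega)
  have himono : I (m + 6) ≤ I (m + 5) := by
    have := I_bound (m + 5)
    push_cast at this
    nlinarith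
  have hqI : (q (m + 4) : ℝ) * I (m + 3) + q (m + 3) * I (m + 4) = 2 := q_I (m + 3)
  push_cast at r0 r1 s0 s1 hx
  have hx100 : 102 ≤ x := by rw [hx]; linarith
  obtain ⟨a0, ha0⟩ : ∃ a0 : ℝ, (q (m + 2) : ℝ) = a0 * q (m + 3) := ⟨q (m + 2) / q (m + 3), by field_simp⟩
  obtain ⟨a1, ha1⟩ : ∃ a1 : ℝ, (q (m + 1) : ℝ) = a1 * q (m + 2) := ⟨q (m + 1) / q (m + 2), by field_simp⟩
  obtain ⟨a2, ha2⟩ : ∃ a2 : ℝ, (q m : ℝ) = a2 * q (m + 1) := ⟨q m / q (m + 1), by field_simp⟩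
  obtain ⟨b0, hb0⟩ : ∃ b0 : ℝ, I (m + 4) = b0 * I (m + 3) := ⟨I (m + 4) / I (m + 3), by field_simp⟩
  obtain ⟨b1, hb1⟩ : ∃ b1 : ℝ, I (m + 5) = b1 * I (m + 4) := ⟨I (m + 5) / I (m + 4), by field_simp⟩
  obtain ⟨b2, hb2⟩ : ∃ b2 : ℝ, I (m + 6) = b2 * I (m + 5) := ⟨I (m + 6) / I (m + 5), by field_simp⟩
  have a2p : 0 ≤ a2 := by
    have : 0 < a2 * q (m + 1) := by rw [← ha2]; exact p3
    exact ((mul_pos_iff_of_pos_right p2).1 this).le
  have a2l : a2 ≤ 1 := by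
    have : a2 * q (m + 1) ≤ 1 * q (m + 1) := by rw [← ha2, one_mul]; exact hqmono
    exact le_of_mul_le_mul_right this p2
  have b2p : 0 ≤ b2 := by
    have : 0 < b2 * I (m + 5) := by rw [← hb2]; exact i3
    exact ((mul_pos_iff_of_pos_right i2).1 this).le
  have b2l : b2 ≤ 1 := by
    have : b2 * I (m + 5) ≤ 1 * I (m + 5) := by rw [← hb2, one_mul]; exact himono
    exact le_of_mul_le_mul_right this i2
  have e1 : a1 * (x - 8 + a2) = 1 := by
    have h : (q (m + 2) : ℝ) * (a1 * (x - 8 + a2)) = q (m + 2) * 1 := by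
      have h1 : (q (m + 2) : ℝ) = (4 * (m : ℝ) + 6 + a2) * q (m + 1) := by rw [r2, ha2]; ring
      have h2 : (q (m + 2) : ℝ) * (a1 * (x - 8 + a2)) = (x - 8 + a2) * (a1 * q (m + 2)) := by ring
      rw [h2, ← ha1, hx, mul_one]
      rw [h1]; ring
    exact mul_left_cancel₀ p1.ne' h
  have e0 : a0 * (x - 4 + a1) = 1 := by
    have h : (q (m + 3) : ℝ) * (a0 * (x - 4 + a1)) = q (m + 3) * 1 := by
      have h1 : (q (m + 3) : ℝ) = (4 * ((m : ℝ) + 1) + 6 + a1) * q (m + 2) := by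
        rw [r1, ha1]; ring
      have h2 : (q (m + 3) : ℝ) * (a0 * (x - 4 + a1)) = (x - 4 + a1) * (a0 * q (m + 3)) := by ring
      rw [h2, ← ha0, hx, mul_one]
      rw [h1]; ring
    exact mul_left_cancel₀ p0.ne' h
  have f1 : b1 * (x + 8 + b2) = 1 := by
    have h : I (m + 4) * (b1 * (x + 8 + b2)) = I (m + 4) * 1 := by
      have h2 : I (m + 4) * (b1 * (x + 8 + b2)) = (x + 8 + b2) * (b1 * I (m + 4)) := by ring
      rw [h2, ← hb1, mul_one]
      have h3 : I (m + 4) = (4 * ((m : ℝ) + 4) + 6) * I (m + 5) + b2 * I (m + 5) := by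
        rw [← hb2]; linarith
      rw [h3, hx]; ring
    exact mul_left_cancel₀ i1.ne' h
  have f0 : b0 * (x + 4 + b1) = 1 := by
    have h : I (m + 3) * (b0 * (x + 4 + b1)) = I (m + 3) * 1 := by
      have h2 : I (m + 3) * (b0 * (x + 4 + b1)) = (x + 4 + b1) * (b0 * I (m + 3)) := by ring
      rw [h2, ← hb0, mul_one]
      have h3 : I (m + 3) = (4 * ((m : ℝ) + 3) + 6) * I (m + 4) + b1 * I (m + 4) := by
        rw [← hb1]; linarith
      rw [h3, hx]; ring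
    exact mul_left_cancel₀ i0.ne' h
  have ga := a_est x a0 a1 a2 (by linarith) a2p a2l e1 e0
  have gb := b_est x b0 b1 b2 (by linarith) b2p b2l f1 f0
  have hF := F_est x a0 b0 (by linarith) ga gb
  have a1p : 0 < a1 := by
    have : 0 < a1 * q (m + 2) := by rw [← ha1]; exact p2
    exact (mul_pos_iff_of_pos_right p1).1 this
  have b1p : 0 < b1 := by
    have : 0 < b1 * I (m + 4) := by rw [← hb1]; exact i2
    exact (mul_pos_iff_of_pos_right i1).1 this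
  have a0p : 0 < a0 := by
    have : 0 < a0 * q (m + 3) := by rw [← ha0]; exact p1
    exact (mul_pos_iff_of_pos_right p0).1 this
  have b0p : 0 < b0 := by
    have : 0 < b0 * I (m + 3) := by rw [← hb0]; exact i1
    exact (mul_pos_iff_of_pos_right i0).1 this
  have a0l : a0 ≤ 1 / 2 := by nlinarith
  have b0l : b0 ≤ 1 / 2 := by nlinarith
  refine ⟨x + a0 + b0, ?_, by linarith, by linarith, hF⟩
  have h1 : (x + a0 + b0) * (q (m + 3) * I (m + 3)) =
      (x * q (m + 3) + a0 * q (m + 3)) * I (m + 3) + q (m + 3) * (b0 * I (m + 3)) := by ring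
  rw [h1, ← ha0, ← hb0, ← hqI, r0, hx]
  ring

/-- `q n` grows at least like a cube -/
theorem q_cube (n : ℕ) (hn : 6 ≤ n) : (4 * n + 2) ^ 3 ≤ q n := by
  induction n, hn using Nat.le_induction with
  | base => decide
  | succ m hm ih =>
    obtain ⟨k, rfl⟩ : ∃ k, m = k + 1 := ⟨m - 1, by omega⟩
    have h : q (k + 2) = (4 * k + 6) * q (k + 1) + q k := rfl
    rw [show k + 1 + 1 = k + 2 from rfl, h]
    have h1 : (4 * k + 6) * (4 * (k + 1) + 2) ^ 3 ≤ (4 * k + 6) * q (k + 1) :=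
      Nat.mul_le_mul_left _ ih
    have h2 : (4 * (k + 2) + 2) ^ 3 ≤ (4 * k + 6) * (4 * (k + 1) + 2) ^ 3 := by
      have h3 : 4 * (k + 2) + 2 ≤ 2 * (4 * (k + 1) + 2) := by omega
      calc (4 * (k + 2) + 2) ^ 3 ≤ (2 * (4 * (k + 1) + 2)) ^ 3 := Nat.pow_le_pow_left h3 3
        _ = 8 * (4 * (k + 1) + 2) ^ 3 := by ring
        _ ≤ (4 * k + 6) * (4 * (k + 1) + 2) ^ 3 := Nat.mul_le_mul_right _ (by omega)
    omega

/-- a crude upper bound for `q n` -/
theorem q_upper (n : ℕ) (hn : 1 ≤ n) : q n ≤ (4 * n) ^ n := by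
  induction n, hn using Nat.le_induction with
  | base => decide
  | succ m hm ih =>
    obtain ⟨k, rfl⟩ : ∃ k, m = k + 1 := ⟨m - 1, by omega⟩
    have h : q (k + 2) = (4 * k + 6) * q (k + 1) + q k := rfl
    rw [show k + 1 + 1 = k + 2 from rfl, h]
    have h1 : q k ≤ q (k + 1) := q_mono (by omega)
    calc (4 * k + 6) * q (k + 1) + q k ≤ (4 * k + 7) * q (k + 1) := by nlinarith
      _ ≤ (4 * (k + 2)) * (4 * (k + 1)) ^ (k + 1) := Nat.mul_le_mul (by omega) ih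
      _ ≤ (4 * (k + 2)) * (4 * (k + 2)) ^ (k + 1) :=
        Nat.mul_le_mul_left _ (Nat.pow_le_pow_left (by omega) _)
      _ = (4 * (k + 2)) ^ (k + 2) := by ring

end Pool.Agent.W99.ExpE
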