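import Mathlib
import Pool.Agent.W99.ExpE.Near
import Pool.Agent.W99.ExpE.Fest

set_option autoImplicit false

namespace Pool.Agent.W99.ExpE

open Real Pool.Agent.H43R2.Cplx.EMeas Pool.Agent.H364R2.EE

theorem dist_e (Q n0 : ℕ) (hQ : 1 ≤ Q) (h : 8 * Q ≤ 2 ^ n0) (N : ℤ) :
    1 / (8 * (4 * n0 + 3) * Q : ℝ) ≤ |Q * exp 1 - N| := by
  obtain ⟨n, hn, h1⟩ := lower Q hQ N
  have hnn : n < n0 := by
    by_contra hc
    push Not at hc
    have := Nat.pow_le_pow_right (n := 2) (by norm_num) hc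
    omega
  refine le_trans ?_ h1
  have hQR : (0 : ℝ) < Q := by exact_mod_cast hQ
  have hR : (n : ℝ) ≤ n0 := by exact_mod_cast hnn.le
  apply one_div_le_one_div_of_le (by positivity)
  apply mul_le_mul_of_nonneg_right _ hQR.le
  linarith

theorem d1_bound (P : ℕ) (hP : 1 ≤ P) (N : ℤ) :
    1 / (1296 * (P : ℝ) ^ 3) ≤ |2 * ((P : ℝ) ^ 2 * exp 1 / 3) - N| := by
  have h1 : P < 2 ^ P := Nat.lt_two_pow_self
  have h2 : 8 * (2 * P ^ 2) ≤ 2 ^ (2 * P + 4) := by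
    have : P ^ 2 ≤ (2 ^ P) ^ 2 := Nat.pow_le_pow_left h1.le 2
    calc 8 * (2 * P ^ 2) = P ^ 2 * 16 := by ring
      _ ≤ (2 ^ P) ^ 2 * 16 := Nat.mul_le_mul_right _ this
      _ = 2 ^ (2 * P + 4) := by rw [← pow_mul, pow_add]; ring
  have h3 := dist_e (2 * P ^ 2) (2 * P + 4) (by nlinarith) h2 (3 * N)
  have hPR : (1 : ℝ) ≤ P := by exact_mod_cast hP
  push_cast at h3
  have h4 : |2 * ((P : ℝ) ^ 2 * exp 1 / 3) - N| = |2 * (P : ℝ) ^ 2 * exp 1 - 3 * N| / 3 := by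
    rw [eq_div_iff (by norm_num), ← abs_of_pos (by norm_num : (0 : ℝ) < 3), ← abs_mul,
      abs_of_pos (by norm_num : (0 : ℝ) < 3)]
    congr 1
    ring
  rw [h4, le_div_iff₀ (by norm_num)]
  refine le_trans ?_ h3
  rw [div_mul_eq_mul_div, div_le_div_iff₀ (by positivity) (by positivity)]
  have h5 : 4 * (2 * (P : ℝ) + 4) + 3 ≤ 27 * P := by linarith
  have h6 : 8 * (4 * (2 * (P : ℝ) + 4) + 3) * (2 * P ^ 2) ≤ 8 * (27 * P) * (2 * P ^ 2) := by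
    apply mul_le_mul_of_nonneg_right _ (by positivity)
    linarith
  nlinarith

theorem d2_bound (P : ℕ) (hP : 1 ≤ P) (N : ℤ) :
    1 / (26400 * (P : ℝ) ^ 5) ≤ |2 * (-(30 * exp 1 * (P : ℝ) ^ 4)) - N| := by
  have h1 : P < 2 ^ P := Nat.lt_two_pow_self
  have h2 : 8 * (60 * P ^ 4) ≤ 2 ^ (4 * P + 9) := by
    have : P ^ 4 ≤ (2 ^ P) ^ 4 := Nat.pow_le_pow_left h1.le 4
    calc 8 * (60 * P ^ 4) = P ^ 4 * 480 := by ring
      _ ≤ (2 ^ P) ^ 4 * 512 := Nat.mul_le_mul this (by norm_num)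
      _ = 2 ^ (4 * P + 9) := by rw [← pow_mul, pow_add]; ring
  have h3 := dist_e (60 * P ^ 4) (4 * P + 9) (by
    have := Nat.one_le_pow 4 P hP
    omega) h2 (-N)
  have hPR : (1 : ℝ) ≤ P := by exact_mod_cast hP
  push_cast at h3
  have h4 : |2 * (-(30 * exp 1 * (P : ℝ) ^ 4)) - N| = |60 * (P : ℝ) ^ 4 * exp 1 - -(N : ℝ)| := by
    rw [← abs_neg]
    congr 1
    ring
  rw [h4]
  refine le_trans ?_ h3
  have hP1 : (0 : ℝ) < P := by linarith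
  apply one_div_le_one_div_of_le (by positivity)
  have h5 : 4 * (4 * (P : ℝ) + 9) + 3 ≤ 55 * P := by linarith
  have h6 : 8 * (4 * (4 * (P : ℝ) + 9) + 3) * (60 * P ^ 4) ≤ 8 * (55 * P) * (60 * P ^ 4) := by
    apply mul_le_mul_of_nonneg_right _ (by positivity)
    linarith
  nlinarith

theorem close (j k β e m θ0 δ : ℝ) (hj : 0 < j) (hk : 0 < k) (hβ : 2 ≤ β) (_he : 0 < e)
    (hθ0 : θ0 = (j * k) ^ 2 * e / 3) (hδ : 2 * θ0 ≤ δ * β ^ 2)
    (h1 : 2 * m * (3 * β ^ 2 + 1) ≤ 3 * β ^ 3 * (j * e))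
    (h2 : 3 * β * (β ^ 2 - 1) * (j * e) ≤ 2 * m * (3 * β ^ 2 - 2)) :
    |j * k * β * (j * k * β * e - 2 * m * k) - θ0| ≤ δ := by
  set η : ℝ := j * β * e - 2 * m with hη
  have a1 : j * β * e ≤ (3 * β ^ 2 + 1) * η := by rw [hη]; nlinarith
  have a2 : (3 * β ^ 2 - 2) * η ≤ j * β * e := by rw [hη]; nlinarith
  have hθ : j * k * β * (j * k * β * e - 2 * m * k) = (j * k ^ 2 * β) * η := by rw [hη]; ring
  rw [hθ]
  have hc : 0 ≤ j * k ^ 2 * β := by positivity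
  have b1 := mul_le_mul_of_nonneg_left a1 hc
  have b2 := mul_le_mul_of_nonneg_left a2 hc
  set θ : ℝ := (j * k ^ 2 * β) * η with hθd
  have hβ2 : 4 ≤ β ^ 2 := by nlinarith
  have hθpos : 0 < θ0 := by rw [hθ0]; positivity
  have c1 : 3 * β ^ 2 * θ0 ≤ (3 * β ^ 2 + 1) * θ := by
    rw [hθ0, hθd]; nlinarith
  have c2 : (3 * β ^ 2 - 2) * θ ≤ 3 * β ^ 2 * θ0 := by
    rw [hθ0, hθd]; nlinarith
  have hδ0 : 0 ≤ δ := by
    by_contra hneg
    push Not at hneg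
    nlinarith
  rw [abs_le]
  constructor
  · by_contra hcon
    push Not at hcon
    have d1 : δ * β ^ 2 < (θ0 - θ) * β ^ 2 := by
      apply mul_lt_mul_of_pos_right _ (by linarith)
      linarith
    have d2 : 0 < θ0 - θ := by linarith
    nlinarith
  · by_contra hcon
    push Not at hcon
    have d1 : δ * β ^ 2 < (θ - θ0) * β ^ 2 := by
      apply mul_lt_mul_of_pos_right _ (by linarith)
      linarith
    have d2 : 0 < θ - θ0 := by linarith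
    nlinarith

/-- the `2`-adic contradiction -/
theorem val_contra (P t n q' r' t' : ℕ) (hP : P ≠ 0) (ht : t ≠ 0) (hq : q' % 2 = 1)
    (hr : r' % 2 = 1) (h1 : 6 * t ^ 2 * (4 * n + 2) = t' * r')
    (h2 : P ^ 2 * ((4 * n + 2) ^ 2 + 2) = t' * q') : False := by
  have : Fact (Nat.Prime 2) := ⟨Nat.prime_two⟩
  have hv : ∀ x : ℕ, x % 2 = 1 → padicValNat 2 x = 0 := fun x hx =>
    padicValNat.eq_zero_of_not_dvd (by omega)
  have e1 : 6 * t ^ 2 * (4 * n + 2) = 2 ^ 2 * (t ^ 2 * (3 * (2 * n + 1))) := by ring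
  have e2 : P ^ 2 * ((4 * n + 2) ^ 2 + 2) = 2 * (P ^ 2 * (2 * (2 * n + 1) ^ 2 + 1)) := by ring
  have ht' : t' ≠ 0 := by
    rintro rfl
    have : 0 < 6 * t ^ 2 * (4 * n + 2) := by positivity
    rw [h1, zero_mul] at this
    exact absurd this (lt_irrefl _)
  have v2 : padicValNat 2 2 = 1 := padicValNat.self (by norm_num)
  have f1 := congrArg (padicValNat 2) (e1.symm.trans h1)
  have f2 := congrArg (padicValNat 2) (e2.symm.trans h2)
  rw [padicValNat.mul (by norm_num) (by positivity), padicValNat.mul (by positivity) (by positivity),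
    padicValNat.pow 2 2, padicValNat.pow t 2, padicValNat.mul ht' (by omega),
    hv _ hr, hv (3 * (2 * n + 1)) (by omega), v2] at f1
  rw [padicValNat.mul (by norm_num) (by positivity), padicValNat.mul (by positivity) (by positivity),
    padicValNat.pow P 2, padicValNat.mul ht' (by omega), hv _ hq,
    hv (2 * (2 * n + 1) ^ 2 + 1) (by omega), v2] at f2
  omega

theorem small2 (P x : ℝ) (hP : 1 ≤ P) (hx : 4 * (10 ^ 10 * P ^ 13) ≤ x) :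
    900 * P ^ 4 / x + 12 * P ^ 6 / x ^ 2 ≤ 1 / (26400 * P ^ 5) / 8 := by
  have h13 : 1 ≤ P ^ 13 := one_le_pow₀ hP
  have hx0 : 0 < x := by linarith
  have hP0 : 0 < P := by linarith
  have g4 : 900 * P ^ 4 / x ≤ 1 / (26400 * P ^ 5) / 16 := by
    rw [div_div, div_le_div_iff₀ hx0 (by positivity)]
    have e1 : P ^ 9 ≤ P ^ 13 := pow_le_pow_right₀ hP (by norm_num)
    have e2 : 900 * P ^ 4 * (26400 * P ^ 5 * 16) = 380160000 * P ^ 9 := by ring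
    rw [e2]
    linarith
  have g5 : 12 * P ^ 6 / x ^ 2 ≤ 1 / (26400 * P ^ 5) / 16 := by
    rw [div_div, div_le_div_iff₀ (by positivity) (by positivity)]
    have e1 : P ^ 11 ≤ P ^ 13 := pow_le_pow_right₀ hP (by norm_num)
    have e2 : x * 1 ≤ x * x := mul_le_mul_of_nonneg_left (by linarith) hx0.le
    have e3 : 12 * P ^ 6 * (26400 * P ^ 5 * 16) = 5068800 * P ^ 11 := by ring
    rw [e3, sq]
    linarith
  have g6 : 1 / (26400 * P ^ 5) / 8 = 1 / (26400 * P ^ 5) / 16 + 1 / (26400 * P ^ 5) / 16 := by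
    ring
  rw [g6]
  exact add_le_add g4 g5

/-- the first approximation of `e` -/
theorem first_approx (j k c m : ℕ) (hj : 1 ≤ j) (hk : 1 ≤ k) (hc : 2 * k ≤ c)
    (h : exp (exp 1) ^ j = (((c : ℝ) + k) / ((c : ℝ) - k)) ^ m) (P B : ℝ) (hPjk : P = j * k)
    (hB : B = j * c) :
    |B * (B * exp 1 - 2 * m * k) - P ^ 2 * exp 1 / 3| ≤ 2 * P ^ 4 / B ^ 2 := by
  have hjR : (1 : ℝ) ≤ j := by exact_mod_cast hj
  have hkR : (1 : ℝ) ≤ k := by exact_mod_cast hk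
  have hcR : (2 : ℝ) * k ≤ c := by exact_mod_cast hc
  obtain ⟨β, hβd⟩ : ∃ β : ℝ, β = (c : ℝ) / k := ⟨_, rfl⟩
  have hcβ : (c : ℝ) = k * β := by rw [hβd]; field_simp
  have hPβ : P * β = B := by rw [hB, hcβ, hPjk]; ring
  have hβ : (2 : ℝ) ≤ β := by
    rw [hβd, le_div_iff₀ (by linarith)]; exact hcR
  have hP0 : 0 < P := by rw [hPjk]; exact mul_pos (by linarith) (by linarith)
  obtain ⟨l1, l2⟩ := log_bounds β hβ
  have hkc : (k : ℝ) < c := by linarith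
  have hratio : ((c : ℝ) + k) / ((c : ℝ) - k) = (β + 1) / (β - 1) := by
    rw [div_eq_div_iff (by linarith) (by linarith), hcβ]
    ring
  rw [hratio] at h
  have hlog : (j : ℝ) * exp 1 = m * log ((β + 1) / (β - 1)) := by
    have := congrArg Real.log h
    rw [Real.log_pow, Real.log_exp, Real.log_pow] at this
    exact this
  have hβ0 : 0 < β := by linarith
  have hβ1 : 0 < β ^ 2 - 1 := by nlinarith
  have hm : (0 : ℝ) ≤ m := by positivity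
  have h1 : 2 * (m : ℝ) * (3 * β ^ 2 + 1) ≤ 3 * β ^ 3 * (j * exp 1) := by
    have h3 := mul_le_mul_of_nonneg_left l1 hm
    rw [← hlog] at h3
    have h4 : (m : ℝ) * (2 / β + 2 / (3 * β ^ 3)) = 2 * m * (3 * β ^ 2 + 1) / (3 * β ^ 3) := by
      field_simp
    rw [h4, div_le_iff₀ (by positivity)] at h3
    linarith
  have h2 : 3 * β * (β ^ 2 - 1) * (j * exp 1) ≤ 2 * (m : ℝ) * (3 * β ^ 2 - 2) := by
    have h3 := mul_le_mul_of_nonneg_left l2 hm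
    rw [← hlog] at h3
    have h4 : (m : ℝ) * (2 / β + 2 / (3 * β * (β ^ 2 - 1))) =
        2 * m * (3 * β ^ 2 - 2) / (3 * β * (β ^ 2 - 1)) := by
      field_simp
      ring
    rw [h4, le_div_iff₀ (by positivity)] at h3
    linarith
  obtain ⟨e, he⟩ : ∃ e : ℝ, e = exp 1 := ⟨_, rfl⟩
  have he0 : 0 < e := by rw [he]; exact Real.exp_pos 1
  have he3 : e ≤ 2.72 := by rw [he]; linarith [Real.exp_one_lt_d9]
  rw [← he] at h1 h2
  rw [← he]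
  obtain ⟨θ1, hθ1⟩ : ∃ θ1 : ℝ, θ1 = P ^ 2 * e / 3 := ⟨_, rfl⟩
  have hθ1pos : 0 < θ1 := by rw [hθ1]; positivity
  have hcl := close j k β e m θ1 (2 * θ1 / β ^ 2) (by linarith) (by linarith) hβ he0
    (by rw [hθ1, hPjk]) (le_of_eq (by field_simp)) h1 h2
  have hθB : j * k * β * (j * k * β * e - 2 * m * k) = B * (B * e - 2 * m * k) := by
    rw [← hPβ, hPjk]
  rw [hθB] at hcl
  rw [← hθ1]
  refine hcl.trans ?_
  have hBpos : 0 < B := by rw [← hPβ]; exact mul_pos hP0 hβ0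
  rw [div_le_div_iff₀ (by positivity) (by positivity), hθ1, ← hPβ]
  have h3 : 0 ≤ P ^ 4 * β ^ 2 := by positivity
  have h4 : 2 * (P ^ 2 * e / 3) * (P * β) ^ 2 = (2 / 3 * e) * (P ^ 4 * β ^ 2) := by ring
  rw [h4]
  nlinarith

theorem B_bound (P x B : ℝ) (hP : 1 ≤ P) (hx : 1 ≤ x) (hxB : x ^ 3 ≤ B) :
    2 * P ^ 4 / B ^ 2 ≤ 2 * P ^ 4 / x ^ 6 := by
  apply div_le_div_of_nonneg_left (by positivity) (by positivity)
  calc x ^ 6 = (x ^ 3) ^ 2 := by ring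
    _ ≤ B ^ 2 := pow_le_pow_left₀ (by positivity) hxB 2

theorem small1 (P x : ℝ) (hP : 1 ≤ P) (hx : 4 * (10 ^ 10 * P ^ 13) ≤ x) :
    2 * P ^ 4 / x ^ 6 ≤ 1 / (1296 * P ^ 3) / 8 := by
  have h13 : 1 ≤ P ^ 13 := one_le_pow₀ hP
  have hx0 : 1 ≤ x := by linarith
  have hP0 : 0 < P := by linarith
  rw [div_div, div_le_div_iff₀ (by positivity) (by positivity)]
  have e1 : P ^ 7 ≤ P ^ 13 := pow_le_pow_right₀ hP (by norm_num)
  have e2 : x ≤ x ^ 6 := le_self_pow₀ hx0 (by norm_num)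
  have e3 : 2 * P ^ 4 * (1296 * P ^ 3 * 8) = 20736 * P ^ 7 := by ring
  rw [e3]
  linarith

theorem small3 (P x : ℝ) (hP : 1 ≤ P) (hx : 4 * (10 ^ 10 * P ^ 13) ≤ x) :
    2 * P ^ 4 / x ^ 6 ≤ 1 / 10 := by
  refine (small1 P x hP hx).trans ?_
  have h3 : 1 ≤ P ^ 3 := one_le_pow₀ hP
  rw [div_div, div_le_div_iff₀ (by positivity) (by norm_num)]
  linarith

/-- the second approximation of `e` -/
theorem second_approx (P : ℝ) (hP : 1 ≤ P) (n t : ℕ) (hn : 25 ≤ n) (ht : 1 ≤ t) (x : ℝ)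
    (hx : x = 4 * (n : ℝ) + 2) (hxbig : 4 * (10 ^ 10 * P ^ 13) ≤ x) (A B : ℝ)
    (hBt : B = t * q n) (hAt : A = t * r n)
    (hη : |B * (B * exp 1 - A) - P ^ 2 * exp 1 / 3| ≤ 2 * P ^ 4 / x ^ 6) :
    |(P ^ 2 * (x ^ 2 + 2)) * (P ^ 2 * (x ^ 2 + 2) * exp 1 - 6 * t ^ 2 * x) -
      (-(30 * exp 1 * P ^ 4))| ≤ 1 / (26400 * P ^ 5) / 8 := by
  have h13 : 1 ≤ P ^ 13 := one_le_pow₀ hP
  have hx40 : (4 * 10 ^ 10 : ℝ) ≤ x := by linarith
  have hx0 : 0 < x := by linarith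
  have hP0 : 0 < P := by linarith
  have hqn0 : 0 < (q n : ℝ) := by exact_mod_cast (q_pos n).1
  have htR : (1 : ℝ) ≤ t := by exact_mod_cast ht
  have hIn := I_pos n
  obtain ⟨e, he⟩ : ∃ e : ℝ, e = exp 1 := ⟨_, rfl⟩
  have he0 : 0 < e := by rw [he]; exact Real.exp_pos 1
  have he3 : e ≤ 2.72 := by rw [he]; linarith [Real.exp_one_lt_d9]
  have he2 : 2.7 ≤ e := by rw [he]; linarith [Real.exp_one_gt_d9]
  rw [← he] at hη ⊢
  obtain ⟨θB, hθBd⟩ : ∃ θB : ℝ, θB = B * (B * e - A) := ⟨_, rfl⟩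
  obtain ⟨θ1, hθ1⟩ : ∃ θ1 : ℝ, θ1 = P ^ 2 * e / 3 := ⟨_, rfl⟩
  rw [← hθBd, ← hθ1] at hη
  have hθBpos : 0 < θB := by
    have h4 := (abs_le.1 (hη.trans (small3 P x hP hxbig))).1
    have h5 : 0.5 ≤ θ1 := by
      rw [hθ1]
      have : 1 ≤ P ^ 2 := one_le_pow₀ hP
      have : 1 * 2.7 ≤ P ^ 2 * e := mul_le_mul this he2 (by norm_num) (by positivity)
      linarith
    linarith
  have hθBI : θB = t ^ 2 * (q n * I n) := by
    have h3 : θB = t ^ 2 * (q n * (q n * e - r n)) := by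
      rw [hθBd, hAt, hBt]; ring
    have h4 : |θB| = t ^ 2 * (q n * I n) := by
      have h5 : |(q n : ℝ) * exp 1 - r n| = I n := by
        have h3 := (I_eq n).1
        rw [← abs_of_pos hIn, h3, abs_mul, abs_sgn, one_mul]
      rw [h3, abs_mul, abs_mul, he, h5, abs_of_pos hqn0, abs_of_pos (by positivity : (0 : ℝ) < t ^ 2)]
    rw [← h4, abs_of_pos hθBpos]
  obtain ⟨F, hF1, hF0, hFx, hFest⟩ := F_bound n hn x hx
  have h6t : 6 * (t : ℝ) ^ 2 = (P ^ 2 * e + 3 * (θB - θ1)) * F := by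
    have h3 : θB * F = 2 * t ^ 2 := by
      rw [hθBI]
      have : (t : ℝ) ^ 2 * (q n * I n) * F = t ^ 2 * (F * (q n * I n)) := by ring
      rw [this, hF1]; ring
    have h4 : P ^ 2 * e + 3 * (θB - θ1) = 3 * θB := by rw [hθ1]; ring
    rw [h4]
    linarith
  obtain ⟨G, hG⟩ : ∃ G : ℝ, G = (x ^ 2 + 2) * (x ^ 2 + 2 - x * F) + 30 := ⟨_, rfl⟩
  rw [← hG] at hFest
  have hkey : (P ^ 2 * (x ^ 2 + 2)) * (P ^ 2 * (x ^ 2 + 2) * e - 6 * t ^ 2 * x) -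
      (-(30 * e * P ^ 4)) = P ^ 4 * e * G - 3 * P ^ 2 * (θB - θ1) * ((x ^ 2 + 2) * x * F) := by
    rw [h6t, hG]; ring
  rw [hkey]
  refine (abs_sub _ _).trans ?_
  have g1 : |P ^ 4 * e * G| ≤ 900 * P ^ 4 / x := by
    rw [abs_mul, abs_of_pos (by positivity : 0 < P ^ 4 * e)]
    calc P ^ 4 * e * |G| ≤ P ^ 4 * 3 * (300 / x) := by
          apply mul_le_mul _ hFest (abs_nonneg _) (by positivity)
          apply mul_le_mul_of_nonneg_left _ (by positivity)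
          linarith
      _ = 900 * P ^ 4 / x := by ring
  have g2 : |3 * P ^ 2 * (θB - θ1) * ((x ^ 2 + 2) * x * F)| ≤ 12 * P ^ 6 / x ^ 2 := by
    rw [abs_mul, abs_mul, abs_of_pos (by positivity : 0 < 3 * P ^ 2),
      abs_of_pos (by positivity : 0 < (x ^ 2 + 2) * x * F)]
    have g3 : (x ^ 2 + 2) * x * F ≤ 2 * x ^ 4 := by
      have h3 : (x ^ 2 + 2) * x * F ≤ (x ^ 2 + 2) * x * (x + 1) :=
        mul_le_mul_of_nonneg_left hFx (by positivity)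
      refine h3.trans ?_
      have hxx : 100 * x ≤ x * x := mul_le_mul_of_nonneg_right (by linarith) hx0.le
      have e1 : x ^ 2 + 2 ≤ x ^ 2 * (11 / 10) := by nlinarith only [hxx, hx40]
      have e2 : x * (x + 1) ≤ x ^ 2 * (11 / 10) := by nlinarith only [hxx, hx40]
      have e3 : (x ^ 2 + 2) * (x * (x + 1)) ≤ (x ^ 2 * (11 / 10)) * (x ^ 2 * (11 / 10)) :=
        mul_le_mul e1 e2 (by positivity) (by positivity)
      have e4 := pow_pos hx0 4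
      have e5 : (x ^ 2 * (11 / 10)) * (x ^ 2 * (11 / 10)) = 121 / 100 * x ^ 4 := by ring
      rw [e5] at e3
      linarith
    calc 3 * P ^ 2 * |θB - θ1| * ((x ^ 2 + 2) * x * F)
        ≤ 3 * P ^ 2 * (2 * P ^ 4 / x ^ 6) * (2 * x ^ 4) := by
          apply mul_le_mul _ g3 (by positivity) (by positivity)
          exact mul_le_mul_of_nonneg_left hη (by positivity)
      _ = 12 * P ^ 6 / x ^ 2 := by field_simp; ring
  exact (add_le_add g1 g2).trans (small2 P x hP hxbig)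

theorem q_ge (n : ℕ) (hn : 6 ≤ n) : n ≤ q n := by
  have h1 := q_cube n hn
  have h2 : 4 * n + 2 ≤ (4 * n + 2) ^ 3 := Nat.le_self_pow (by norm_num) _
  omega

/-- the second level -/
theorem second_level (P : ℕ) (hP : 1 ≤ P) (n t N2 : ℕ) (hN2 : N2 = 10 ^ 10 * P ^ 13)
    (hn : q N2 ≤ n) (ht : 1 ≤ t) (x : ℝ) (hx : x = 4 * (n : ℝ) + 2)
    (h : |((P : ℝ) ^ 2 * (x ^ 2 + 2)) * ((P : ℝ) ^ 2 * (x ^ 2 + 2) * exp 1 - 6 * t ^ 2 * x) -
      (-(30 * exp 1 * (P : ℝ) ^ 4))| ≤ 1 / (26400 * (P : ℝ) ^ 5) / 8) : False := by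
  have hPR : (1 : ℝ) ≤ P := by exact_mod_cast hP
  have hP13 : 1 ≤ P ^ 13 := Nat.one_le_pow _ _ hP
  have hN2big : 10 ^ 10 ≤ N2 := by rw [hN2]; omega
  obtain ⟨e, he⟩ : ∃ e : ℝ, e = exp 1 := ⟨_, rfl⟩
  have he0 : 0 < e := by rw [he]; exact Real.exp_pos 1
  have he3 : e ≤ 2.72 := by rw [he]; linarith [Real.exp_one_lt_d9]
  obtain ⟨b', hb'⟩ : ∃ b' : ℕ, b' = P ^ 2 * ((4 * n + 2) ^ 2 + 2) := ⟨_, rfl⟩
  have hb'n : n ≤ b' := by
    rw [hb']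
    have e1 : 1 ≤ P ^ 2 := Nat.one_le_pow _ _ hP
    have e2 : n ≤ (4 * n + 2) ^ 2 + 2 := by nlinarith
    calc n ≤ 1 * ((4 * n + 2) ^ 2 + 2) := by omega
      _ ≤ P ^ 2 * ((4 * n + 2) ^ 2 + 2) := Nat.mul_le_mul_right _ e1
  have hb'R : (b' : ℝ) = P ^ 2 * (x ^ 2 + 2) := by rw [hb', hx]; push_cast; ring
  obtain ⟨n', hn', hn'1, hn'2⟩ := index_ge N2 (b' : ℤ) (by exact_mod_cast hn.trans hb'n)
  have hd1 : 1 / (26400 * (P : ℝ) ^ 5) ≤ 1 := by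
    rw [div_le_one (by positivity)]
    have : (1 : ℝ) ≤ (P : ℝ) ^ 5 := one_le_pow₀ hPR
    linarith
  have hdist : ∀ N : ℤ, 1 / (26400 * (P : ℝ) ^ 5) ≤ |2 * (-(30 * e * (P : ℝ) ^ 4)) - N| := by
    intro N
    have := d2_bound P hP N
    rw [← he] at this
    exact this
  have hsize : 48 * (|(-(30 * e * (P : ℝ) ^ 4))| + 1) ^ 2 ≤ n' * (1 / (26400 * (P : ℝ) ^ 5)) := by
    rw [abs_neg, abs_of_pos (by positivity)]
    have h4 : (1 : ℝ) ≤ (P : ℝ) ^ 4 := one_le_pow₀ hPR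
    have h13 : (1 : ℝ) ≤ (P : ℝ) ^ 13 := one_le_pow₀ hPR
    have e0 : e * (P : ℝ) ^ 4 ≤ 2.72 * (P : ℝ) ^ 4 := mul_le_mul_of_nonneg_right he3 (by positivity)
    have e1 : 30 * e * (P : ℝ) ^ 4 + 1 ≤ 82.6 * (P : ℝ) ^ 4 := by linarith
    have e2 : (30 * e * (P : ℝ) ^ 4 + 1) ^ 2 ≤ (82.6 * (P : ℝ) ^ 4) ^ 2 :=
      pow_le_pow_left₀ (by positivity) e1 2
    have e3 : (n' : ℝ) ≥ 10 ^ 10 * (P : ℝ) ^ 13 := by
      have : ((10 ^ 10 * P ^ 13 : ℕ) : ℝ) ≤ n' := by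
        rw [← hN2]; exact_mod_cast hn'
      push_cast at this
      linarith
    rw [mul_one_div, le_div_iff₀ (by positivity)]
    have e5 : (30 * e * (P : ℝ) ^ 4 + 1) ^ 2 * (P : ℝ) ^ 5 ≤
        (82.6 * (P : ℝ) ^ 4) ^ 2 * (P : ℝ) ^ 5 :=
      mul_le_mul_of_nonneg_right e2 (by positivity)
    have e6 : (82.6 * (P : ℝ) ^ 4) ^ 2 * (P : ℝ) ^ 5 = 82.6 ^ 2 * (P : ℝ) ^ 13 := by ring
    rw [e6] at e5
    have e7 : 48 * (30 * e * (P : ℝ) ^ 4 + 1) ^ 2 * (26400 * (P : ℝ) ^ 5) =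
      1267200 * ((30 * e * (P : ℝ) ^ 4 + 1) ^ 2 * (P : ℝ) ^ 5) := by ring
    rw [e7]
    linarith
  have hval : (((b' : ℤ) : ℝ)) * (((b' : ℤ) : ℝ) * exp 1 - ((6 * t ^ 2 * (4 * n + 2) : ℤ) : ℝ)) =
      (P ^ 2 * (x ^ 2 + 2)) * (P ^ 2 * (x ^ 2 + 2) * e - 6 * t ^ 2 * x) := by
    push_cast
    rw [hb'R, ← hx, he]
  obtain ⟨t', ht'1, ht'2⟩ := level (-(30 * e * (P : ℝ) ^ 4)) (1 / (26400 * (P : ℝ) ^ 5))
    (by positivity) hd1 hdist n' (by omega) hsize (6 * t ^ 2 * (4 * n + 2)) (b' : ℤ) hn'1 hn'2 (by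
      rw [hval, he]
      exact h)
  have ht'pos : 0 ≤ t' := by
    by_contra hcon
    push Not at hcon
    have h3 : (0 : ℤ) < q n' := by exact_mod_cast (q_pos n').1
    have h4 := mul_neg_of_neg_of_pos hcon h3
    rw [← ht'2] at h4
    have : (0 : ℤ) ≤ b' := by positivity
    omega
  lift t' to ℕ using ht'pos
  exact val_contra P t n (q n') (r n') t' (by omega) (by omega) (q_odd n').1 (r_odd n').1
    (by exact_mod_cast ht'1) (by rw [← hb']; exact_mod_cast ht'2)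

/-- there is no solution with `j * c` beyond an explicit bound -/
theorem no_sol (j k c m : ℕ) (hj : 1 ≤ j) (hk : 1 ≤ k)
    (hc : q (q (10 ^ 10 * (j * k) ^ 13)) ≤ j * c)
    (h : exp (exp 1) ^ j = (((c : ℝ) + k) / ((c : ℝ) - k)) ^ m) : False := by
  obtain ⟨P, hPd⟩ : ∃ P, P = j * k := ⟨_, rfl⟩
  have hP : 1 ≤ P := by rw [hPd]; exact Nat.mul_le_mul hj hk
  have hPR : (1 : ℝ) ≤ P := by exact_mod_cast hP
  have hPR0 : (0 : ℝ) < P := by linarith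
  rw [← hPd] at hc
  obtain ⟨N2, hN2⟩ : ∃ N2, N2 = 10 ^ 10 * P ^ 13 := ⟨_, rfl⟩
  rw [← hN2] at hc
  have hP13 : 1 ≤ P ^ 13 := Nat.one_le_pow _ _ hP
  have hN2big : 10 ^ 10 ≤ N2 := by rw [hN2]; omega
  have hM : N2 ≤ q N2 := q_ge N2 (by omega)
  have hMM : q N2 ≤ q (q N2) := q_ge _ (by omega)
  -- the index of `j * c`
  obtain ⟨n, hn, hn1, hn2⟩ := index_ge (q N2) ((j * c : ℕ) : ℤ) (by exact_mod_cast hc)
  have hnN : N2 ≤ n := hM.trans hn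
  obtain ⟨x, hx⟩ : ∃ x : ℝ, x = 4 * (n : ℝ) + 2 := ⟨_, rfl⟩
  have hnP : (10 ^ 10 * (P : ℝ) ^ 13) ≤ n := by
    have : ((10 ^ 10 * P ^ 13 : ℕ) : ℝ) ≤ n := by
      rw [← hN2]; exact_mod_cast hnN
    push_cast at this
    linarith
  have hxbig : 4 * (10 ^ 10 * (P : ℝ) ^ 13) ≤ x := by
    rw [hx]; linarith
  have h13 : (1 : ℝ) ≤ (P : ℝ) ^ 13 := one_le_pow₀ hPR
  have hx1 : (1 : ℝ) ≤ x := by linarith
  have hjR : (1 : ℝ) ≤ j := by exact_mod_cast hj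
  have hkR : (1 : ℝ) ≤ k := by exact_mod_cast hk
  have hPjk : (P : ℝ) = j * k := by rw [hPd]; push_cast; ring
  -- `B = j c ≥ x ^ 3`
  obtain ⟨B, hB⟩ : ∃ B : ℝ, B = j * c := ⟨_, rfl⟩
  have hqn : x ^ 3 ≤ q n := by
    have := q_cube n (by omega)
    rw [hx]
    exact_mod_cast this
  have hqB : (q n : ℝ) ≤ B := by
    rw [hB]
    exact_mod_cast hn1
  have hxB : x ^ 3 ≤ B := hqn.trans hqB
  have hB0 : 0 < B := by
    have : (0 : ℝ) < x ^ 3 := by positivity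
    linarith
  have h2k : 2 * k ≤ c := by
    have h1 : j * (2 * k) ≤ j * c := by
      have h2 : j * (2 * k) = 2 * P := by rw [hPd]; ring
      have h3 : P ≤ P ^ 13 := Nat.le_self_pow (by norm_num) _
      rw [h2]
      have h4 : N2 ≤ j * c := (hM.trans hMM).trans hc
      omega
    exact Nat.le_of_mul_le_mul_left h1 (by omega)
  have hη := first_approx j k c m hj hk h2k h P B hPjk hB
  have hη6 := hη.trans (B_bound P x B hPR hx1 hxB)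
  obtain ⟨e, he⟩ : ∃ e : ℝ, e = exp 1 := ⟨_, rfl⟩
  have he0 : 0 < e := by rw [he]; exact Real.exp_pos 1
  have he3 : e ≤ 2.72 := by rw [he]; linarith [Real.exp_one_lt_d9]
  obtain ⟨θ1, hθ1⟩ : ∃ θ1 : ℝ, θ1 = (P : ℝ) ^ 2 * e / 3 := ⟨_, rfl⟩
  have hθ1pos : 0 < θ1 := by rw [hθ1]; positivity
  have hd1 : 1 / (1296 * (P : ℝ) ^ 3) ≤ 1 := by
    rw [div_le_one (by positivity)]
    have : (1 : ℝ) ≤ (P : ℝ) ^ 3 := one_le_pow₀ hPR
    linarith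
  have hdist : ∀ N : ℤ, 1 / (1296 * (P : ℝ) ^ 3) ≤ |2 * θ1 - N| := by
    intro N
    have := d1_bound P hP N
    rw [← he, ← hθ1] at this
    exact this
  have hsize : 48 * (|θ1| + 1) ^ 2 ≤ n * (1 / (1296 * (P : ℝ) ^ 3)) := by
    rw [abs_of_pos hθ1pos]
    have h2 : (1 : ℝ) ≤ (P : ℝ) ^ 2 := one_le_pow₀ hPR
    have e0 : (P : ℝ) ^ 2 * e ≤ (P : ℝ) ^ 2 * 2.72 := mul_le_mul_of_nonneg_left he3 (by positivity)
    have e1 : θ1 + 1 ≤ 2 * (P : ℝ) ^ 2 := by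
      rw [hθ1]; linarith
    have e2 : (θ1 + 1) ^ 2 ≤ (2 * (P : ℝ) ^ 2) ^ 2 := pow_le_pow_left₀ (by linarith) e1 2
    rw [mul_one_div, le_div_iff₀ (by positivity)]
    have e4 : (P : ℝ) ^ 7 ≤ (P : ℝ) ^ 13 := pow_le_pow_right₀ hPR (by norm_num)
    have e5 : (θ1 + 1) ^ 2 * (P : ℝ) ^ 3 ≤ (2 * (P : ℝ) ^ 2) ^ 2 * (P : ℝ) ^ 3 :=
      mul_le_mul_of_nonneg_right e2 (by positivity)
    have e6 : (2 * (P : ℝ) ^ 2) ^ 2 * (P : ℝ) ^ 3 = 4 * (P : ℝ) ^ 7 := by ring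
    rw [e6] at e5
    have e7 : 48 * (θ1 + 1) ^ 2 * (1296 * (P : ℝ) ^ 3) = 62208 * ((θ1 + 1) ^ 2 * (P : ℝ) ^ 3) := by
      ring
    rw [e7]
    linarith
  have hval : ((((j * c : ℕ) : ℤ) : ℝ)) * ((((j * c : ℕ) : ℤ) : ℝ) * exp 1 -
      ((2 * m * k : ℤ) : ℝ)) = B * (B * exp 1 - 2 * m * k) := by
    rw [hB]; push_cast; ring
  obtain ⟨t, ht1, ht2⟩ := level θ1 (1 / (1296 * (P : ℝ) ^ 3)) (by positivity) hd1 hdist n
    (by omega) hsize (2 * m * k) ((j * c : ℕ) : ℤ) hn1 hn2 (by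
      rw [hval, hθ1, he]
      exact hη6.trans (small1 P x hPR hxbig))
  have hqn0 : 0 < (q n : ℝ) := by exact_mod_cast (q_pos n).1
  have hBt : B = t * q n := by
    have : ((((j * c : ℕ) : ℤ) : ℝ)) = ((t * q n : ℤ) : ℝ) := by rw [← ht2]
    push_cast at this
    rw [hB]; exact this
  have hAt : 2 * (m : ℝ) * k = t * r n := by
    have : ((2 * m * k : ℤ) : ℝ) = ((t * r n : ℤ) : ℝ) := by rw [← ht1]
    push_cast at this
    exact this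
  have htpos : 0 < t := by
    have : (0 : ℝ) < t := by
      have : 0 < (t : ℝ) * q n := by rw [← hBt]; exact hB0
      exact (mul_pos_iff_of_pos_right hqn0).1 this
    exact_mod_cast this
  lift t to ℕ using htpos.le
  have htN : 0 < t := by exact_mod_cast htpos
  have hBt' : B = (t : ℝ) * q n := by rw [hBt]; push_cast; ring
  have hAt' : 2 * (m : ℝ) * k = (t : ℝ) * r n := by rw [hAt]; push_cast; ring
  have h2 := second_approx P hPR n t (by omega) htN x hx hxbig (2 * m * k) B hBt' hAt' hη6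
  exact second_level P hP n t N2 hN2 hn htN x hx h2

end Pool.Agent.W99.ExpE
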